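import Pool.Agent.Helper269.Uni

/-!
# Common patterns in the sets of Schinzel's hypothesis for `F_1(n), ..., F_g(n), N - G(n)`, uniformly in `N`

For integer polynomials `F_1, ..., F_g, G` and an integer `N`, for which `F_1 ... F_g (N - G)` has no fixed prime
divisor, let `ω(q)` be the number of the residues `n` modulo `q` with `q ∣ F_1(n) ... F_g(n) (N - G(n))`, and write
`E(X) = X ∏ (1 - ω(q) / q)` (product over the primes `q ≤ X`); this has the order of magnitude predicted by Schinzel
for the number of the `n ≤ X` with all the values prime, if the polynomials are as in the question.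
(1) Consider `M` arbitrary such systems `(F^j, G^j, N_j)`, of degree at most `r` but otherwise arbitrary (for example
`M` arbitrary values `N_j` for the same polynomials), and let `S_j` be an arbitrary set of integers `n` in an arbitrary
interval of length `X`, for which the values of the `j`-th system have no prime factors up to `X ^ κ` (for example a
set of `n` for which they are primes larger than `X ^ κ`). If `S_j` has at least `δ E_j(X)` elements, for all `j`, then
the `S_j` have common difference vectors: for a positive proportion of the vectors `h ∈ {1, ..., D} ^ m` the set `S_j`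
contains for every `P ⊆ {0, ..., k - 1} ^ m` with `0 ∈ P` the number of patterns `n + f · h`, `f ∈ P`, which is
predicted for the `j`-th system, for all `j` at once; here `D` is arbitrary with `(log X) ^ B ≤ D ≤ X`, and all
constants are independent of the polynomials and of the `N_j`. For `m = 1`: a positive proportion of the integers up
to `D` are differences of `k`-term arithmetic progressions in all the sets `S_j`.
(2) The `n` in `(A, A + X]` for which the product of the values has at most `ρ` prime factors, all of them larger than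
`X ^ (1 / ρ)`, are such a set, if the product is at most `X ^ s` in this interval, so that (1) is unconditional for
their dense subsets, for every admissible `N`, in short intervals.

The proof specialises the theorems of `Pool.Agent.X26` of the starting library.
-/

set_option autoImplicit false

namespace Pool.Agent.Results.MP_0bf1d2_nt.CommonPatterns

open Filter

/-- Polynomials `F_1, ..., F_g, G`, the sum of their degrees being at most `r`, and an integer `N`, such that
`F_1 ... F_g (N - G)` has no fixed prime divisor. -/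
structure Family (g r : ℕ) where
  /-- the polynomials `F_i` -/
  F : Fin g → Polynomial ℤ
  /-- the polynomial `G` -/
  G : Polynomial ℤ
  /-- the integer `N` -/
  N : ℤ
  degree : ∑ i, (F i).natDegree + G.natDegree ≤ r
  noFixed : ∀ p : ℕ, p.Prime → ∃ n : ℤ, ¬ (p : ℤ) ∣ (∏ i, (F i).eval n) * (N - G.eval n)

/-- The product `F_1(n) ... F_g(n) (N - G(n))`. -/
noncomputable def value {g r : ℕ} (e : Family g r) (n : ℤ) : ℤ := (∏ i, (e.F i).eval n) * (e.N - e.G.eval n)

/-- All prime factors of the value at `n` are larger than `z`. -/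
def Rough {g r : ℕ} (e : Family g r) (z : ℝ) (n : ℕ) : Prop :=
  ∀ q : ℕ, q.Prime → (q : ℤ) ∣ value e n → z < q

/-- The integer `f · h = f 0 * h 0 + f 1 * h 1 + ...`. -/
def dot {m : ℕ} (f h : Fin m → ℕ) : ℕ := ∑ i, f i * h i

/-- The number of the residues `w` modulo `q` such that `q` divides the value at `w + f · h` for some `f ∈ P`. -/
noncomputable def omega {g r : ℕ} (e : Family g r) {m : ℕ} (h : Fin m → ℕ) (P : Finset (Fin m → ℕ)) (q : ℕ) : ℕ :=
  {w : ℕ | 1 ≤ w ∧ w ≤ q ∧ ∃ f ∈ P, (q : ℤ) ∣ value e ((w + dot f h : ℕ) : ℤ)}.ncard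

/-- `X` times the product of the `1 - w q / q` over the primes `q ≤ X`. -/
noncomputable def expected (w : ℕ → ℕ) (X : ℕ) : ℝ :=
  X * ∏ q ∈ (Finset.Icc 1 X).filter Nat.Prime, (1 - (w q : ℝ) / q)

/-- The number of the residues `w` modulo `q` such that `q` divides the value at `w`. -/
noncomputable def nu {g r : ℕ} (e : Family g r) (q : ℕ) : ℕ :=
  {w : ℕ | 1 ≤ w ∧ w ≤ q ∧ (q : ℤ) ∣ value e (w : ℤ)}.ncard

/-- The number of the `n ∈ S` such that all the `n + f · h`, `f ∈ P`, are in `S`. -/
noncomputable def count (S : Set ℕ) {m : ℕ} (h : Fin m → ℕ) (P : Finset (Fin m → ℕ)) : ℕ :=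
  {n : ℕ | n ∈ S ∧ ∀ f ∈ P, n + dot f h ∈ S}.ncard

/-- For all `P ⊆ {0, ..., k - 1} ^ m` with `0 ∈ P`: the integers `f · h`, `f ∈ P`, are different, and for all `j`
the conditions modulo the primes are solvable and the set `S j` contains at least `c` times the expected number of
the patterns `n + f · h`, `f ∈ P`. -/
def Common {g r M m : ℕ} (e : Fin M → Family g r) (c : ℝ) (k X : ℕ) (S : Fin M → Set ℕ) (h : Fin m → ℕ) : Prop :=
  ∀ P : Finset (Fin m → ℕ), (∀ f ∈ P, ∀ i, f i < k) → (fun _ => 0) ∈ P →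
    Set.InjOn (fun f => dot f h) (P : Set (Fin m → ℕ)) ∧
      ∀ j, (∀ q : ℕ, q.Prime → omega (e j) h P q < q) ∧
        c * expected (omega (e j) h P) X ≤ (count (S j) h P : ℝ)

/-- The `n` for which the value at `n` is not zero and has at most `ρ` prime factors, counted with multiplicity, all
of them larger than `X ^ (1 / ρ)`. -/
def Almost {g r : ℕ} (e : Family g r) (ρ X : ℕ) : Set ℕ :=
  {n | value e n ≠ 0 ∧ ArithmeticFunction.cardFactors (value e n).natAbs ≤ ρ ∧
    ∀ q : ℕ, q.Prime → (q : ℤ) ∣ value e n → (X : ℝ) ^ (1 / (ρ : ℝ)) < q}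

/-- the polynomial -/
noncomputable def F {g r : ℕ} (e : Family g r) (_ : Fin 1) : Polynomial ℤ :=
  (∏ i, e.F i) * (Polynomial.C e.N - e.G)

theorem F_eval {g r : ℕ} (e : Family g r) (i : Fin 1) (x : ℤ) : (F e i).eval x = value e x := by
  unfold F value
  rw [Polynomial.eval_mul, Polynomial.eval_prod, Polynomial.eval_sub, Polynomial.eval_C]

theorem prod_eq {g r : ℕ} (e : Family g r) : ∏ i, F e i = F e 0 := by simp

/-- the relation -/
def R {g r : ℕ} (e : Family g r) (q n : ℕ) : Prop := (q : ℤ) ∣ value e n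

theorem hR {g r : ℕ} (e : Family g r) :
    ∀ q n : ℕ, 1 ≤ n → (R e q n ↔ ∃ i, (q : ℤ) ∣ (F e i).eval (n : ℤ)) := by
  intro q n _
  unfold R
  constructor
  · intro h
    exact ⟨0, by rw [F_eval]; exact h⟩
  · rintro ⟨i, hi⟩
    rwa [F_eval] at hi

theorem deg {g r : ℕ} (e : Family g r) : (∏ i, F e i).natDegree ≤ r := by
  rw [prod_eq]
  unfold F
  refine Polynomial.natDegree_mul_le.trans ((add_le_add (Polynomial.natDegree_prod_le _ _) ?_).trans e.degree)
  refine (Polynomial.natDegree_sub_le _ _).trans (max_le ?_ le_rfl)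
  rw [Polynomial.natDegree_C]
  exact Nat.zero_le _

theorem nf {g r : ℕ} (e : Family g r) : Pool.Agent.X26.GP.NF (∏ i, F e i) := by
  intro q hq
  obtain ⟨n, hn⟩ := e.noFixed q hq
  refine ⟨n, ?_⟩
  rw [prod_eq, F_eval]
  exact hn

theorem expected_eq {g r : ℕ} (e : Family g r) (X : ℕ) :
    expected (nu e) X = X * Pool.Agent.X69.Ric.prR (Pool.Agent.Helper269.nuR (R e)) X := rfl

/-- **Common patterns.** -/
theorem result (g r : ℕ) :
    (∀ (M m k : ℕ) (κ δ : ℝ), 0 < κ → κ ≤ 1 → 0 < δ →
      ∃ c : ℝ, 0 < c ∧ ∃ B X₀ : ℕ, ∀ X D : ℕ, X₀ ≤ X → Real.log X ^ B ≤ D → D ≤ X →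
      ∀ (e : Fin M → Family g r) (A : Fin M → ℕ) (S : Fin M → Set ℕ),
        (∀ j, S j ⊆ Set.Ioc (A j) (A j + X)) → (∀ j, ∀ n ∈ S j, Rough (e j) ((X : ℝ) ^ κ) n) →
        (∀ j, δ * expected (nu (e j)) X ≤ ((S j).ncard : ℝ)) →
        c * (D : ℝ) ^ m ≤ ({h : Fin m → ℕ | (∀ i, 1 ≤ h i ∧ h i ≤ D) ∧ Common e c k X S h}.ncard : ℝ)) ∧
    ∀ s : ℝ, ∃ ρ : ℕ, 1 ≤ ρ ∧ ∃ X₀ : ℕ, ∀ (X A : ℕ) (e : Family g r), X₀ ≤ X →
        (∀ n : ℕ, A < n → n ≤ A + X → |((value e n : ℤ) : ℝ)| ≤ (X : ℝ) ^ s) →
        1 / 2 * expected (nu e) X ≤ ((Almost e ρ X ∩ Set.Ioc A (A + X)).ncard : ℝ) ∧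
        ∀ n ∈ Almost e ρ X ∩ Set.Ioc A (A + X), Rough e ((X : ℝ) ^ (1 / (ρ : ℝ))) n := by
  refine ⟨fun M m k κ δ hκ hκ1 hδ => ?_, fun a => ?_⟩
  · obtain ⟨c, hc, B, X₀, h⟩ := Pool.Agent.Helper269.uni_common (g := 1) M m k r κ δ hκ hκ1 hδ
    refine ⟨c, hc, B, X₀, fun X D hX hBD hDX e A S hS hSR hSc => ?_⟩
    have h1 := h X D hX hBD hDX (fun j => F (e j)) (fun j => R (e j)) (fun j => deg (e j))
      (fun j => nf (e j)) (fun j => hR (e j)) A S hS (fun j n hn q hq hd => hSR j n hn q hq hd)
      (fun j => by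
        rw [← expected_eq]
        exact hSc j)
    exact h1
  · obtain ⟨ρ, hρ, X₀, h⟩ := Pool.Agent.Helper269.uni_low (g := 1) r a
    refine ⟨ρ, hρ, X₀, fun X A e hX hb => ⟨?_, fun n hn => hn.1.2.2⟩⟩
    have h1 := h X A hX (F e) (R e) (deg e) (nf e) (hR e) (fun n hn1 hn2 => by
      rw [prod_eq, F_eval]
      exact hb n hn1 hn2)
    rw [← expected_eq] at h1
    refine h1.trans (Nat.cast_le.2 ?_)
    apply Set.ncard_le_ncard _ ((Set.finite_Ioc A (A + X)).subset Set.inter_subset_right)
    rintro n ⟨h2, h3, h4, h5⟩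
    rw [prod_eq] at h3 h4 h5
    rw [F_eval] at h3 h4
    refine ⟨⟨h4, ?_, ?_⟩, h2⟩
    · rw [ArithmeticFunction.cardFactors_apply]
      exact h3
    · intro q hq hd
      apply h5 q hq
      rw [F_eval]
      exact hd

end Pool.Agent.Results.MP_0bf1d2_nt.CommonPatterns
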