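import Pool.Agent.helper24_UT.Ch18
import Pool.Agent.helper24_UT.R2

set_option autoImplicit false

/-!
# Schinzel's Goldbach-type hypothesis for almost all `M` and constant terms: small prime arguments

Let `G, F_1, ..., F_g` (`g ≥ 0`) be integer polynomials of the same degree `d`, `d ≥ 3` or `d = 2` and `g ≥ 1`, let `ε > 0` and `A` be fixed and let `N` be large. For all but at most
`N ^ (g + 1) / (log N) ^ A` of the `(M, a_1, ..., a_g)` with `1 ≤ M ≤ N`, `|a_i| ≤ N` and for ALL `y` with `N ^ (1 / 3 + ε) ≤ y ^ d ≤ N` the number of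
the `p ≤ y` for which `p`, `M - G(p)` and all `F_i(p) + a_i` are primes (up to the sign, weighted by logarithms) is given by Schinzel's singular series, cut at `z`,
with an error `y / (log N) ^ A`. (`d = 1`: `MP_967f73_nt.SmallCommonSummands`; `d = 2`, `g = 0`: `MP_d9bc60_nt.SmallPrimeArguments`.)

Proof. The values of a polynomial have nearly minimal additive energy of high order, so the correlations of the primes minus their sieve model along
`M - G(n)`, with arbitrary weights on the `n ≤ y`, are bounded by the mean square of exponential sums over primes in intervals of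
length `y ^ d` (`Pool.Agent.helper24_UT.Ch.t_MKT`, the method of Mikawa, `y ^ d ≥ N ^ (1 / 3 + ε)`); the factors are replaced one after the other.
-/

namespace Pool.Agent.Results.MP_0bf1d2_nt.SmallArguments

open Finset Polynomial

variable {g : ℕ}

/-- `|M - G(n)|` and all `|F_i(n) + a_i|` are primes -/
def AllPrime (F : Fin g → ℤ[X]) (G : ℤ[X]) (M : ℤ) (a : Fin g → ℤ) (n : ℕ) : Prop :=
  (M - G.eval (n : ℤ)).natAbs.Prime ∧ ∀ i, ((F i).eval (n : ℤ) + a i).natAbs.Prime

open Classical in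
/-- `log |M - G(n)| ∏ log |F_i(n) + a_i|` if all these numbers are primes, `0` otherwise -/
noncomputable def lp (F : Fin g → ℤ[X]) (G : ℤ[X]) (M : ℤ) (a : Fin g → ℤ) (n : ℕ) : ℝ :=
  if AllPrime F G M a n then
    Real.log ((M - G.eval (n : ℤ)).natAbs : ℝ) * ∏ i, Real.log (((F i).eval (n : ℤ) + a i).natAbs : ℝ) else 0

/-- the sum of `log p` times `lp` over the primes `p ≤ y` -/
noncomputable def thetaP (F : Fin g → ℤ[X]) (G : ℤ[X]) (M : ℤ) (a : Fin g → ℤ) (y : ℕ) : ℝ :=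
  ∑ p ∈ (Icc 1 y).filter Nat.Prime, Real.log p * lp F G M a p

/-- Schinzel's `ω(w)` for the polynomials `x`, `F_i + a_i`, `M - G`: the number of the residues `t` modulo `w` with
`w ∣ t (M - G(t)) ∏ (F_i(t) + a_i)` -/
def omegaP (F : Fin g → ℤ[X]) (G : ℤ[X]) (M : ℤ) (a : Fin g → ℤ) (w : ℕ) : ℕ :=
  ((range w).filter (fun t : ℕ => (w : ℤ) ∣ (t : ℤ) * ((M - G.eval (t : ℤ)) * ∏ i, ((F i).eval (t : ℤ) + a i)))).card

/-- Schinzel's singular series for the polynomials `x`, `F_i + a_i`, `M - G`, cut at `z` -/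
noncomputable def singP (F : Fin g → ℤ[X]) (G : ℤ[X]) (M : ℤ) (a : Fin g → ℤ) (z : ℕ) : ℝ :=
  ∏ w ∈ (Icc 1 z).filter Nat.Prime, (1 - (omegaP F G M a w : ℝ) / w) / (1 - 1 / (w : ℝ)) ^ (g + 2)

/-- `x (M - G) ∏ (F_i + a_i)` has no fixed prime divisor -/
def NoFixed (F : Fin g → ℤ[X]) (G : ℤ[X]) (M : ℤ) (a : Fin g → ℤ) : Prop :=
  ∀ w : ℕ, w.Prime → ∃ t : ℤ, ¬ (w : ℤ) ∣ t * ((M - G.eval t) * ∏ i, ((F i).eval t + a i))

/-- For all `y` with `N ^ (1 / 3 + ε) ≤ y ^ d ≤ N`: (1) Schinzel's formula for prime arguments `p ≤ y`; (2) if there is no fixed prime divisor, then all these numbers are primes for some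
prime `p ≤ y`. -/
def Good (ε : ℝ) (d A N z : ℕ) (F : Fin g → ℤ[X]) (G : ℤ[X]) (M : ℤ) (a : Fin g → ℤ) : Prop :=
  ∀ y : ℕ, (N : ℝ) ^ (1 / 3 + ε) ≤ (y : ℝ) ^ d → y ^ d ≤ N →
    |thetaP F G M a y - y * singP F G M a z| ≤ y / Real.log N ^ A ∧
    (NoFixed F G M a → ∃ p : ℕ, p ≤ y ∧ p.Prime ∧ AllPrime F G M a p)

/-- the system `- G, F_1, ..., F_g` -/
noncomputable def S (F : Fin g → ℤ[X]) (G : ℤ[X]) : Fin (g + 1) → ℤ[X] := Fin.cons (-G) F

/-- the constant terms `M, a_1, ..., a_g` -/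
def cc (M : ℤ) (a : Fin g → ℤ) : Fin (g + 1) → ℤ := Fin.cons M a

lemma S_zero (F : Fin g → ℤ[X]) (G : ℤ[X]) (M : ℤ) (a : Fin g → ℤ) (t : ℤ) :
    (S F G 0).eval t + cc M a 0 = M - G.eval t := by
  unfold S cc
  rw [Fin.cons_zero, Fin.cons_zero, eval_neg]
  ring

lemma S_succ (F : Fin g → ℤ[X]) (G : ℤ[X]) (M : ℤ) (a : Fin g → ℤ) (t : ℤ) (i : Fin g) :
    (S F G i.succ).eval t + cc M a i.succ = (F i).eval t + a i := by
  unfold S cc
  rw [Fin.cons_succ, Fin.cons_succ]

lemma S_deg {d : ℕ} (F : Fin g → ℤ[X]) (hF : ∀ i, (F i).natDegree = d) (G : ℤ[X]) (hG : G.natDegree = d) (i : Fin (g + 1)) :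
    (S F G i).natDegree = d := by
  refine Fin.cases ?_ (fun j => ?_) i
  · unfold S
    rw [Fin.cons_zero, natDegree_neg, hG]
  · unfold S
    rw [Fin.cons_succ, hF]

lemma all_iff (F : Fin g → ℤ[X]) (G : ℤ[X]) (M : ℤ) (a : Fin g → ℤ) (n : ℕ) :
    (∀ i, ((S F G i).eval (n : ℤ) + cc M a i).natAbs.Prime) ↔ AllPrime F G M a n := by
  rw [Fin.forall_fin_succ, S_zero]
  simp only [S_succ]
  rfl

lemma prW_eq (F : Fin g → ℤ[X]) (G : ℤ[X]) (M : ℤ) (a : Fin g → ℤ) (n : ℕ) :
    Pool.Agent.helper24_UT.prW (S F G) (cc M a) n = lp F G M a n := by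
  classical
  unfold Pool.Agent.helper24_UT.prW lp
  by_cases h : AllPrime F G M a n
  · rw [if_pos h, if_pos ((all_iff F G M a n).2 h), Fin.prod_univ_succ, S_zero]
    simp only [S_succ]
  · rw [if_neg h, if_neg (fun h2 => h ((all_iff F G M a n).1 h2))]

/-- divisibility of a product by a prime -/
lemma dvd_iff (w : ℕ) (hw : w.Prime) (F : Fin g → ℤ[X]) (G : ℤ[X]) (M : ℤ) (a : Fin g → ℤ) (t : ℤ) :
    (∃ i, (w : ℤ) ∣ (S F G i).eval t + cc M a i) ↔ (w : ℤ) ∣ (M - G.eval t) * ∏ i, ((F i).eval t + a i) := by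
  have hp : Prime (w : ℤ) := Nat.prime_iff_prime_int.1 hw
  rw [hp.dvd_mul, hp.dvd_finsetProd_iff, Fin.exists_fin_succ, S_zero]
  simp only [S_succ, mem_univ, true_and]

lemma singP_eq (F : Fin g → ℤ[X]) (G : ℤ[X]) (M : ℤ) (a : Fin g → ℤ) (z : ℕ) :
    Pool.Agent.helper24_UT.sgp z (fun i => S F G i + C (cc M a i)) = singP F G M a z := by
  classical
  rw [Pool.Agent.helper24_UT.R2.sgp_eq_sg]
  unfold Pool.Agent.helper24_UT.sg singP
  apply prod_congr rfl
  intro w hw
  have hw' : w.Prime := (mem_filter.1 hw).2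
  have hp : Prime (w : ℤ) := Nat.prime_iff_prime_int.1 hw'
  congr 3
  unfold Pool.Agent.helper24_UT.om omegaP
  congr 2
  ext t
  simp only [mem_filter]
  apply and_congr_right
  intro _
  rw [hp.dvd_mul, ← dvd_iff w hw' F G M a, Fin.exists_fin_succ, Fin.cons_zero, eval_X]
  simp only [Fin.cons_succ, eval_add, eval_C]

lemma theta_eq (F : Fin g → ℤ[X]) (G : ℤ[X]) (M : ℤ) (a : Fin g → ℤ) (y : ℕ) :
    Pool.Agent.helper24_UT.thU Pool.Agent.helper24_UT.lgP (S F G) (cc M a) y = thetaP F G M a y := by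
  classical
  unfold Pool.Agent.helper24_UT.thU thetaP
  rw [sum_filter, sum_filter]
  apply sum_congr rfl
  intro n _
  rw [← prW_eq]
  unfold Pool.Agent.helper24_UT.prW Pool.Agent.helper24_UT.lgP
  by_cases h1 : ∀ i, ((S F G i).eval (n : ℤ) + cc M a i).natAbs.Prime
  · rw [if_pos h1, if_pos h1]
    by_cases h2 : n.Prime
    · rw [if_pos h2, if_pos h2]
    · rw [if_neg h2, if_neg h2, zero_mul]
  · rw [if_neg h1, if_neg h1]
    by_cases h2 : n.Prime
    · rw [if_pos h2, mul_zero]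
    · rw [if_neg h2]

lemma cc_inj : Function.Injective (fun x : ℤ × (Fin g → ℤ) => cc x.1 x.2) := by
  rintro ⟨M, a⟩ ⟨M', a'⟩ h
  have h1 : (Fin.cons M a : Fin (g + 1) → ℤ) = Fin.cons M' a' := h
  obtain ⟨h2, h3⟩ := Fin.cons_inj.1 h1
  rw [h2, h3]

lemma cc_mem (N : ℕ) (x : ℤ × (Fin g → ℤ)) (h : x ∈ Icc 1 (N : ℤ) ×ˢ Fintype.piFinset (fun _ : Fin g => Icc (-(N : ℤ)) N)) :
    cc x.1 x.2 ∈ Fintype.piFinset (fun _ : Fin (g + 1) => Icc (-(N : ℤ)) N) := by
  rw [mem_product, Fintype.mem_piFinset] at h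
  rw [Fintype.mem_piFinset]
  intro i
  refine Fin.cases ?_ (fun j => ?_) i
  · unfold cc
    rw [Fin.cons_zero]
    have h1 := mem_Icc.1 h.1
    exact mem_Icc.2 ⟨by omega, h1.2⟩
  · unfold cc
    rw [Fin.cons_succ]
    exact h.2 j

open Classical in
/-- **Schinzel's formula for almost all `M` (and constant terms), small prime arguments.** -/
theorem result (g d : ℕ) (hgd : (2 ≤ d ∧ 1 ≤ g) ∨ 3 ≤ d) (F : Fin g → ℤ[X]) (hF : ∀ i, (F i).natDegree = d) (G : ℤ[X]) (hG : G.natDegree = d)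
    (ε : ℝ) (hε : 0 < ε) (A : ℕ) : ∃ E₀ : ℕ, ∀ E₁ : ℕ, ∃ N₀ : ℕ, ∀ N : ℕ, N₀ ≤ N → ∀ z : ℕ,
    Real.log N ^ E₀ ≤ z → (z : ℝ) ≤ Real.log N ^ E₁ →
    (((Icc 1 (N : ℤ) ×ˢ Fintype.piFinset (fun _ : Fin g => Icc (-(N : ℤ)) N)).filter
      (fun x => ¬ Good ε d A N z F G x.1 x.2)).card : ℝ) ≤ (N : ℝ) ^ (g + 1) / Real.log N ^ A := by
  have hd : 1 ≤ d := by omega
  obtain ⟨e, he⟩ := exists_nat_gt (1 / ε)
  have he0 : (0 : ℝ) < e := lt_trans (by positivity) he
  have he1 : 1 ≤ e := by exact_mod_cast he0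
  have hle : 1 / (e : ℝ) ≤ ε := by
    rw [div_le_iff₀ he0]
    rw [div_lt_iff₀ hε] at he
    linarith
  have hS := S_deg F hF G hG
  obtain ⟨E₀, h⟩ := Pool.Agent.helper24_UT.Ch.t_R27 (g + 1) d (S F G) hd hS e (A + 2) he1
  refine ⟨E₀, fun E₁ => ?_⟩
  obtain ⟨N₀, h0⟩ := h E₁
  obtain ⟨N₁, h1⟩ := Pool.Agent.helper24_UT.Low.main (g + 2) d E₁
  have hlog : Filter.Tendsto (fun N : ℕ => Real.log (N : ℝ)) Filter.atTop Filter.atTop :=
    Real.tendsto_log_atTop.comp tendsto_natCast_atTop_atTop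
  obtain ⟨N₃, hN₃⟩ := Filter.eventually_atTop.1 (hlog.eventually_ge_atTop 2)
  refine ⟨N₀ + N₁ + N₃ + 1, fun N hN z hz1 hz2 => ?_⟩
  have hL2 : 2 ≤ Real.log N := hN₃ N (by omega)
  have hN1 : 1 ≤ N := by omega
  have hN0 : (0 : ℝ) < N := by exact_mod_cast hN1
  have hL0 : 0 < Real.log N := by linarith
  have hrange : ∀ y : ℕ, (N : ℝ) ^ (1 / 3 + ε) ≤ (y : ℝ) ^ d → y ^ d ≤ N → Pool.Agent.helper24_UT.Yr (1 / 3) e N d y := by
    intro y hy1 hy2
    exact ⟨(Real.rpow_le_rpow_of_exponent_le (by exact_mod_cast hN1) (by linarith)).trans hy1, hy2⟩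
  have key := h0 N (by omega) z hz1 hz2
  set bad1 := (Fintype.piFinset (fun _ : Fin (g + 1) => Icc (-(N : ℤ)) N)).filter (fun a => ∃ y : ℕ,
    Pool.Agent.helper24_UT.Yr (1 / 3) e N d y ∧
    (y : ℝ) / (Real.log N) ^ (A + 2) < |Pool.Agent.helper24_UT.thU Pool.Agent.helper24_UT.lgP (S F G) a y -
      y * Pool.Agent.helper24_UT.sgp z (fun i => S F G i + C (a i))|) with hbad1
  have hsub : ((Icc 1 (N : ℤ) ×ˢ Fintype.piFinset (fun _ : Fin g => Icc (-(N : ℤ)) N)).filter
    (fun x => ¬ Good ε d A N z F G x.1 x.2)).card ≤ bad1.card := by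
    refine card_le_card_of_injOn (fun x => cc x.1 x.2) ?_ (cc_inj.injOn)
    intro x hx
    have hx := mem_filter.1 (mem_coe.1 hx)
    have hmem := cc_mem N x hx.1
    rw [mem_coe]
    by_contra c1
    apply hx.2
    intro y hy1 hy2
    have hY := hrange y hy1 hy2
    have hform : |thetaP F G x.1 x.2 y - y * singP F G x.1 x.2 z| ≤ y / Real.log N ^ (A + 2) := by
      by_contra hc
      apply c1
      rw [hbad1, mem_filter]
      refine ⟨hmem, y, hY, ?_⟩
      rw [theta_eq, singP_eq]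
      exact not_le.1 hc
    refine ⟨hform.trans ?_, fun hfix => ?_⟩
    · apply div_le_div_of_nonneg_left (Nat.cast_nonneg _) (by positivity)
      exact pow_le_pow_right₀ (by linarith) (by omega)
    · have hy0 : (0 : ℝ) < y := by
        have h4 : (0 : ℝ) < (y : ℝ) ^ d := lt_of_lt_of_le (by positivity) hy1
        have h5 : y ≠ 0 := by
          rintro rfl
          rw [Nat.cast_zero, zero_pow (by omega)] at h4
          exact lt_irrefl _ h4
        exact_mod_cast Nat.pos_of_ne_zero h5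
      have hlow : 1 / Real.log N ≤ singP F G x.1 x.2 z := by
        rw [← singP_eq, Pool.Agent.helper24_UT.R2.sgp_eq_sg]
        apply h1 N (by omega) z hz2
        · intro i
          refine Fin.cases ?_ (fun j => ?_) i
          · rw [Fin.cons_zero, natDegree_X]
            exact hd
          · rw [Fin.cons_succ, natDegree_add_C]
            exact (hS j).le
        · intro p hp
          obtain ⟨t, ht⟩ := hfix p hp
          refine ⟨t, fun i => ?_⟩
          refine Fin.cases ?_ (fun j => ?_) i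
          · rw [Fin.cons_zero, eval_X]
            intro h4
            exact ht (Dvd.dvd.mul_right h4 _)
          · rw [Fin.cons_succ, eval_add, eval_C]
            intro h4
            exact ht (Dvd.dvd.mul_left ((dvd_iff p hp F G x.1 x.2 t).1 ⟨j, h4⟩) _)
      have hpos : 0 < thetaP F G x.1 x.2 y := by
        have h4 := hform
        rw [abs_le] at h4
        have h5 : (y : ℝ) / Real.log N ^ (A + 2) < y * singP F G x.1 x.2 z := by
          calc (y : ℝ) / Real.log N ^ (A + 2) < y * (1 / Real.log N) := by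
                rw [mul_one_div]
                apply div_lt_div_of_pos_left hy0 hL0
                calc Real.log N = Real.log N ^ 1 := (pow_one _).symm
                  _ < Real.log N ^ (A + 2) := pow_lt_pow_right₀ (by linarith) (by omega)
            _ ≤ _ := mul_le_mul_of_nonneg_left hlow hy0.le
        linarith [h4.1]
      by_contra hno
      push Not at hno
      have hz : thetaP F G x.1 x.2 y = 0 := by
        unfold thetaP
        apply sum_eq_zero
        intro p hp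
        have hp1 := mem_filter.1 hp
        unfold lp
        rw [if_neg (hno p (mem_Icc.1 hp1.1).2 hp1.2), mul_zero]
      linarith
  refine (Nat.cast_le.2 hsub).trans (key.trans ?_)
  apply div_le_div_of_nonneg_left (by positivity) (by positivity)
  exact pow_le_pow_right₀ (by linarith) (by omega)

end Pool.Agent.Results.MP_0bf1d2_nt.SmallArguments
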